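import Mathlib
import Pool.Agent.K9h38.RP.GFin

/-!
# The decomposition group at `p` is dense in the image of the Galois representation

Let `p` be a prime number and let `E` be a number field which contains the `p`-th roots of unity, has
exactly one prime ideal above `p` and has class number prime to `p`; if `p = 2` and `E` is not totally
complex, assume moreover that the units of `E` which are squares modulo `4` are squares (so that the
condition for `p = 2` is that the narrow class number is odd). Examples are the fields `ℚ(ζ_N)`, `N ≠ 1`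
a power of a regular prime number `p`, the totally real fields of odd narrow class number in which `2`
does not split (`p = 2`), and the fields `ℚ(√-3, √d)` of class number prime to `3` in which `3` does
not split (`p = 3`). Let `Q` be the unit ideal, or a prime ideal of `E` whose norm (and its negative, if
`E` is not totally complex) is not a `p`-th power in `ℚ_p`; for `Q` prime to `p` this means that the
norm of `Q` is not `1` modulo `p ^ 2` if `p ≠ 2`, and not `1` (or `± 1`) modulo `8` if `p = 2`. Let `M`
be a finite Galois extension of `E` whose degree is a power of `p` and which is unramified outside `p`,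
`Q` and infinity (there is no condition on its Galois group), and let `L` be any subfield of `M`, for
example a totally real one. Neither `M` nor `E` need be Galois over `ℚ`, and there is no condition on
`L ∩ E`.

Let `V` be a continuous `n`-dimensional representation of `G_L` over a finite extension of `ℚ_p` (or
over the fraction field of a Noetherian local domain with finite residue field of characteristic `p`)
whose restriction to `G_M` is residually unipotent and unramified outside `p` and `Q`. This is the
situation of the Tate module `V_λ(A)`, for `λ` above `p`, of an abelian variety `A / L` of `GL₂`-type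
which has good reduction over `M` outside `p` and `Q` and for which `A[λ]` is an iterated extension of
trivial representations of `G_M`, for instance if `M` is the field generated over `L` by `A[λ]`. Let `D`
be the decomposition group of any place of `L` above `p`.

Theorem. For every subgroup `D'` of `D` of index at most `r` there is a field `L'` of degree at most `r`
over `L` such that the image of `G_{L'}` is contained in the closure of the image of `D'`. So the
subspaces of `V` which are stable under `D'` are stable under `G_{L'}`. In particular `D` is dense in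
the image of `G_L`, and the subspaces which are stable under `D` are stable under `G_L`.

For example, if `V_λ(A)` is an abelian representation of a subgroup of finite index of `D`, then it is
an abelian representation of a subgroup of finite index of `G_L`, and `A` has potentially complex
multiplication by the theorem of Faltings (this is not part of the formal proof).

Proof. By the theorem of Burnside it is enough to know the cyclic extensions of `E` of degree `p` in
which the prime above `p` splits and which are unramified outside `Q`. By Kummer theory such an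
extension is given by an element `x` of `E` which is a `p`-th power in the completion at `p`. Its norm
is a `p`-th power in `ℚ_p`, which excludes ramification at `Q`; so `x` is the product of a unit and a
`p`-th power, and the unit is a `p`-th power by Kummer's lemma, which is proved for `E` by the theorem
94 of Hilbert. So `D` is dense in the image of `G_L`.
-/

set_option autoImplicit false

namespace Pool.Agent.Results.MP_326854_nt.DenseAboveP

open Matrix IsLocalRing NumberField

/-- An algebraic closure of `ℚ`. -/
abbrev QBar : Type := AlgebraicClosure ℚ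

/-- The absolute Galois group of `ℚ`. -/
def AbsGal : Type := QBar ≃ₐ[ℚ] QBar

/-- its group structure -/
noncomputable instance instGroupAbsGal : Group AbsGal := AlgEquiv.aut (R := ℚ) (A₁ := QBar)

/-- its Krull topology -/
noncomputable instance instTopAbsGal : TopologicalSpace AbsGal := krullTopology ℚ QBar

/-- The action of the Galois group on `ℚ̄`. -/
noncomputable def app (σ : AbsGal) (x : QBar) : QBar := (show QBar ≃ₐ[ℚ] QBar from σ) x

/-- The subfields of `ℚ̄`. -/
abbrev Field' : Type := IntermediateField ℚ QBar

/-- The absolute Galois group of the field `L`. -/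
noncomputable def galOf (L : Field') : Subgroup AbsGal := IntermediateField.fixingSubgroup L

/-- The decomposition group of the place of `ℚ̄` above `ℓ` given by the embedding `ι` of `ℚ̄`. -/
def Dec {ℓ : ℕ} [Fact ℓ.Prime] (ι : QBar →ₐ[ℚ] PadicAlgCl ℓ) : Set AbsGal :=
  {σ | ∃ τ : PadicAlgCl ℓ ≃ₐ[ℚ_[ℓ]] PadicAlgCl ℓ, ∀ x, τ (ι x) = ι (app σ x)}

/-- Its inertia group: the automorphisms which are trivial on the residue field. -/
def Inr {ℓ : ℕ} [Fact ℓ.Prime] (ι : QBar →ₐ[ℚ] PadicAlgCl ℓ) : Set AbsGal :=
  {σ | ∃ τ : PadicAlgCl ℓ ≃ₐ[ℚ_[ℓ]] PadicAlgCl ℓ, (∀ x, τ (ι x) = ι (app σ x)) ∧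
    ∀ z : PadicAlgCl ℓ, ‖z‖ ≤ 1 → ‖τ z - z‖ < 1}

/-- The ring of integers of the field `E`. -/
def Int' (E : Field') : Type := 𝓞 E

/-- its ring structure -/
noncomputable instance instRingInt' (E : Field') : CommRing (Int' E) :=
  inferInstanceAs (CommRing (𝓞 E))

/-- The integers of `E` as elements of `ℚ̄`. -/
noncomputable def coe' {E : Field'} (x : Int' E) : QBar := (((show 𝓞 E from x) : E) : QBar)

/-- The class number of `E`. -/
noncomputable def classNr (E : Field') [NumberField E] : ℕ := classNumber E

/-- `E` has no embedding in the field of real numbers. -/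
def IsComplex' (E : Field') : Prop := ∀ φ : E →+* ℂ, ∃ x, (φ x).im ≠ 0

/-- The norm of the ideal `Q`: the number of elements of the residue class ring. -/
noncomputable def normId {E : Field'} (Q : Ideal (Int' E)) : ℕ := Nat.card (Int' E ⧸ Q)

/-- Only one prime ideal of `E` contains `p`. -/
def OnePrime (p : ℕ) (E : Field') : Prop :=
  ∀ P P' : Ideal (Int' E), P.IsPrime → P'.IsPrime → (p : Int' E) ∈ P → (p : Int' E) ∈ P' → P = P'

/-- The units of `E` which are squares modulo `4` are squares. -/
def PrimaryUnits (E : Field') : Prop :=
  ∀ (u : (Int' E)ˣ) (w : Int' E), 4 ∣ (u : Int' E) - w ^ 2 → ∃ η : (Int' E)ˣ, u = η ^ 2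

/-- `Q` is the unit ideal or a prime ideal whose norm (and its negative, if `E` is not totally complex)
is not a `p`-th power in `ℚ_p`. -/
def Auxiliary (p : ℕ) [Fact p.Prime] {E : Field'} (Q : Ideal (Int' E)) : Prop :=
  Q = ⊤ ∨ (Q.IsPrime ∧ ∀ b : ℚ_[p], b ^ p ≠ (normId Q : ℚ_[p]) ∧
    (¬ IsComplex' E → b ^ p ≠ -(normId Q : ℚ_[p])))

/-- The place of `ℚ̄` given by `ι` is above the prime ideal `Q` of `E`. (It is above no prime ideal
equal to the unit ideal.) -/
def Above {E : Field'} {ℓ : ℕ} [Fact ℓ.Prime] (ι : QBar →ₐ[ℚ] PadicAlgCl ℓ)
    (Q : Ideal (Int' E)) : Prop :=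
  ∀ x : Int' E, x ∈ Q ↔ ‖ι (coe' x)‖ < 1

/-- The conditions on the base field `E` and on the auxiliary ideal `Q`: `E` contains the `p`-th roots
of unity, only one prime ideal of `E` contains `p`, the class number of `E` is prime to `p` (and, if
`p = 2` and `E` is not totally complex, the units which are squares modulo `4` are squares), and `Q` is
the unit ideal or a prime ideal whose norm (and its negative, if `E` is not totally complex) is not a
`p`-th power in `ℚ_p`. -/
structure IsBase (p : ℕ) [Fact p.Prime] (E : Field') [NumberField E] (Q : Ideal (Int' E)) : Prop where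
  root : ∃ ζ : E, IsPrimitiveRoot ζ p
  unique : OnePrime p E
  coprime : (classNr E).Coprime p
  units : p = 2 → IsComplex' E ∨ PrimaryUnits E
  aux : Auxiliary p Q

/-- `M` is a finite Galois extension of `E`, of degree a power of `p`, which is unramified outside `p`,
`Q` and infinity. -/
structure IsPExtension (p : ℕ) (E : Field') [NumberField E] (Q : Ideal (Int' E)) (M : Field') :
    Prop where
  le : E ≤ M
  normal : ∀ σ ∈ galOf E, ∀ x ∈ M, app σ x ∈ M
  degree : ∃ a : ℕ, Module.finrank ℚ M = p ^ a * Module.finrank ℚ E
  unramified : ∀ (ℓ : ℕ) [Fact ℓ.Prime] (ι : QBar →ₐ[ℚ] PadicAlgCl ℓ), ℓ ≠ p → ¬ Above ι Q →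
    ∀ σ ∈ (Inr ι : Set AbsGal), σ ∈ galOf E → ∀ x ∈ M, app σ x = x

variable {L : Field'}

/-- The representation `ρ` of the absolute Galois group of `L` is continuous, and its restriction to
the absolute Galois group of `M` is residually unipotent and unramified outside `p` and `Q`. -/
structure Admissible {A : Type} [CommRing A] [IsLocalRing A] [TopologicalSpace A] {n : ℕ} (p : ℕ)
    (E : Field') [NumberField E] (Q : Ideal (Int' E)) (M : Field')
    (ρ : galOf L →* GL (Fin n) A) : Prop where
  cont : ∀ i j, Continuous fun σ => (ρ σ : Matrix (Fin n) (Fin n) A) i j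
  unipotent : ∀ σ : galOf L, (σ : AbsGal) ∈ galOf M → ∃ m : ℕ, ∀ i j,
    (((ρ σ : Matrix (Fin n) (Fin n) A) - 1) ^ m) i j ∈ maximalIdeal A
  unramified : ∀ (ℓ : ℕ) [Fact ℓ.Prime] (ι : QBar →ₐ[ℚ] PadicAlgCl ℓ), ℓ ≠ p → ¬ Above ι Q →
    ∀ σ : galOf L, (σ : AbsGal) ∈ Inr ι → (σ : AbsGal) ∈ galOf M → ρ σ = 1

/-- The action of `σ` on `V = F ^ n`. -/
noncomputable def act {A : Type} [CommRing A] (F : Type) [Field F] [Algebra A F] {n : ℕ}
    (ρ : galOf L →* GL (Fin n) A) (σ : galOf L) (v : Fin n → F) : Fin n → F :=
  ((ρ σ : Matrix (Fin n) (Fin n) A).map (algebraMap A F)) *ᵥ v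

/-- `D ∩ G_L` is covered by the left cosets `r D'` with `r ∈ R`. -/
def Covers (D : Set AbsGal) (D' : Subgroup (galOf L)) (R : Finset (galOf L)) : Prop :=
  ∀ δ : galOf L, (δ : AbsGal) ∈ D → ∃ r ∈ R, r⁻¹ * δ ∈ D'

/-- The automorphisms over `L` which are automorphisms over `L'`. -/
def galIn (L L' : Field') : Set (galOf L) := {σ | (σ : AbsGal) ∈ galOf L'}

/-- `L'` is an extension of `L` of degree at most `r`. -/
def DegreeLE (L L' : Field') (r : ℕ) : Prop :=
  L ≤ L' ∧ 0 < Module.finrank ℚ L' ∧ Module.finrank ℚ L' ≤ r * Module.finrank ℚ L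

/-- The image of `σ` is in the closure of the image of `D'`. -/
def InClosure {A : Type} [CommRing A] [IsLocalRing A] {n : ℕ} (ρ : galOf L →* GL (Fin n) A)
    (D' : Subgroup (galOf L)) (σ : galOf L) : Prop :=
  ∀ m : ℕ, ∃ δ ∈ D', ∀ i j, (ρ σ : Matrix (Fin n) (Fin n) A) i j -
    (ρ δ : Matrix (Fin n) (Fin n) A) i j ∈ maximalIdeal A ^ m

/-- The subspace `W` of `V` is stable under `S`. -/
def StableUnder {A : Type} [CommRing A] (F : Type) [Field F] [Algebra A F] {n : ℕ}
    (ρ : galOf L →* GL (Fin n) A) (S : Set (galOf L)) (W : Submodule F (Fin n → F)) : Prop :=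
  ∀ σ ∈ S, ∀ w ∈ W, act F ρ σ w ∈ W

/-- **The closures of the images of the subgroups of finite index of the decomposition group.** -/
theorem result (p : ℕ) [Fact p.Prime] (E : Field') [NumberField E] (Q : Ideal (Int' E))
    (hE : IsBase p E Q) (M : Field') (hM : IsPExtension p E Q M) (L : Field') (hL : L ≤ M)
    (A : Type) [CommRing A] [IsLocalRing A] [IsNoetherianRing A] [TopologicalSpace A]
    (hA : IsAdic (maximalIdeal A)) (hfin : Finite (ResidueField A)) (hp : (p : A) ∈ maximalIdeal A)
    (F : Type) [Field F] [Algebra A F] [IsFractionRing A F]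
    (n : ℕ) (ρ : galOf L →* GL (Fin n) A) (hρ : Admissible p E Q M ρ)
    (ι : QBar →ₐ[ℚ] PadicAlgCl p) (D' : Subgroup (galOf L)) (R : Finset (galOf L))
    (hR : Covers (Dec ι) D' R) :
    ∃ L' : Field', DegreeLE L L' R.card ∧ (∀ σ ∈ galIn L L', InClosure ρ D' σ) ∧
      ∀ W : Submodule F (Fin n → F), StableUnder F ρ D' W → StableUnder F ρ (galIn L L') W := by
  have hM0 : 0 < Module.finrank ℚ M := by
    obtain ⟨a, ha⟩ := hM.degree
    rw [ha]
    exact Nat.mul_pos (pow_pos (Fact.out : p.Prime).pos a) Module.finrank_pos
  have hdense := Pool.Agent.K9h38.RP.fin_dense hE.root hE.units hE.unique hE.coprime hE.aux hM.le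
    hM.normal hM.degree hM.unramified hL hA hfin hp hρ.cont hρ.unipotent hρ.unramified ι
  obtain ⟨L', h1, h2, h3, h4, h5⟩ := Pool.Agent.K9h38.RP.fin_pot (F := F) hM0 hL hA hρ.cont hdense hR
  exact ⟨L', ⟨h1, h2, h3⟩, h4, h5⟩

end Pool.Agent.Results.MP_326854_nt.DenseAboveP
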