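import Mathlib
import Pool.Agent.K9h38.RP.GFin

/-!
# Irreducible representations are not potentially ordinary

Let `p` be a prime number and let `E` be a number field which contains the `p`-th roots of unity, has
exactly one prime ideal above `p` and has class number prime to `p`; if `p = 2` and `E` is not totally
complex, assume moreover that the units of `E` which are squares modulo `4` are squares (so that the
condition for `p = 2` is that the narrow class number is odd). Examples are the fields `ℚ(ζ_N)`, `N ≠ 1`
a power of a regular prime number `p`, the totally real fields of odd narrow class number in which `2`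
does not split (`p = 2`), and the fields `ℚ(√-3, √d)` of class number prime to `3` in which `3` does
not split (`p = 3`). Let `Q` be the unit ideal, or a prime ideal of `E` whose norm (and its negative, if
`E` is not totally complex) is not a `p`-th power in `ℚ_p`; for `Q` prime to `p` this means that the
norm of `Q` is not `1` modulo `p ^ 2` if `p ≠ 2`, and not `1` (or `± 1`) modulo `8` if `p = 2`. Let `M`
be a finite Galois extension of `E` whose degree is a power of `p` and which is unramified outside `p`,
`Q` and infinity (there is no condition on its Galois group), and let `L` be any subfield of `M`, for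
example a totally real one. Neither `M` nor `E` need be Galois over `ℚ`, and there is no condition on
`L ∩ E`.

Let `V` be a continuous `n`-dimensional representation of `G_L` over a finite extension of `ℚ_p` (or
over the fraction field of a Noetherian local domain with finite residue field of characteristic `p`)
whose restriction to `G_M` is residually unipotent and unramified outside `p` and `Q`. This is the
situation of the Tate module `V_λ(A)`, for `λ` above `p`, of an abelian variety `A / L` of `GL₂`-type
which has good reduction over `M` outside `p` and `Q` and for which `A[λ]` is an iterated extension of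
trivial representations of `G_M`, for instance if `M` is the field generated over `L` by `A[λ]`. Let `D`
be the decomposition group of any place of `L` above `p`.

Theorem. If `V` is potentially ordinary or potentially multiplicative at this place, with ordinary part
`W` (potentially, inertia acts by the cyclotomic character on `W` and trivially on `V / W`; a weaker
condition is enough), then `W` is stable under `G_L`. So an irreducible `V` is neither potentially
ordinary nor potentially multiplicative at any place above `p`.

So the abelian varieties `A / L` of `GL₂`-type, `L` totally real, with the two properties above are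
neither potentially ordinary nor potentially multiplicative at `λ`, since `V_λ(A)` is irreducible. (This
deduction, which uses the theorem of Faltings, is not part of the formal proof.)

Proof. By the theorem of Burnside it is enough to know the cyclic extensions of `E` of degree `p` in
which the prime above `p` splits and which are unramified outside `Q`. By Kummer theory such an
extension is given by an element `x` of `E` which is a `p`-th power in the completion at `p`. Its norm
is a `p`-th power in `ℚ_p`, which excludes ramification at `Q`; so `x` is the product of a unit and a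
`p`-th power, and the unit is a `p`-th power by Kummer's lemma, which is proved for `E` by the theorem
94 of Hilbert. So `D` is dense in the image of `G_L`. The commutators of the
elements of `D` with the elements of the inertia group are in the kernel of the cyclotomic character;
this shows that `W` is stable under `D`.
-/

set_option autoImplicit false

namespace Pool.Agent.Results.MP_326854_nt.OrdinaryPartsAboveP

open Matrix IsLocalRing NumberField

/-- An algebraic closure of `ℚ`. -/
abbrev QBar : Type := AlgebraicClosure ℚ

/-- The absolute Galois group of `ℚ`. -/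
def AbsGal : Type := QBar ≃ₐ[ℚ] QBar

/-- its group structure -/
noncomputable instance instGroupAbsGal : Group AbsGal := AlgEquiv.aut (R := ℚ) (A₁ := QBar)

/-- its Krull topology -/
noncomputable instance instTopAbsGal : TopologicalSpace AbsGal := krullTopology ℚ QBar

/-- The action of the Galois group on `ℚ̄`. -/
noncomputable def app (σ : AbsGal) (x : QBar) : QBar := (show QBar ≃ₐ[ℚ] QBar from σ) x

/-- The subfields of `ℚ̄`. -/
abbrev Field' : Type := IntermediateField ℚ QBar

/-- The absolute Galois group of the field `L`. -/
noncomputable def galOf (L : Field') : Subgroup AbsGal := IntermediateField.fixingSubgroup L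

/-- The decomposition group of the place of `ℚ̄` above `ℓ` given by the embedding `ι` of `ℚ̄`. -/
def Dec {ℓ : ℕ} [Fact ℓ.Prime] (ι : QBar →ₐ[ℚ] PadicAlgCl ℓ) : Set AbsGal :=
  {σ | ∃ τ : PadicAlgCl ℓ ≃ₐ[ℚ_[ℓ]] PadicAlgCl ℓ, ∀ x, τ (ι x) = ι (app σ x)}

/-- Its inertia group: the automorphisms which are trivial on the residue field. -/
def Inr {ℓ : ℕ} [Fact ℓ.Prime] (ι : QBar →ₐ[ℚ] PadicAlgCl ℓ) : Set AbsGal :=
  {σ | ∃ τ : PadicAlgCl ℓ ≃ₐ[ℚ_[ℓ]] PadicAlgCl ℓ, (∀ x, τ (ι x) = ι (app σ x)) ∧
    ∀ z : PadicAlgCl ℓ, ‖z‖ ≤ 1 → ‖τ z - z‖ < 1}

/-- The ring of integers of the field `E`. -/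
def Int' (E : Field') : Type := 𝓞 E

/-- its ring structure -/
noncomputable instance instRingInt' (E : Field') : CommRing (Int' E) :=
  inferInstanceAs (CommRing (𝓞 E))

/-- The integers of `E` as elements of `ℚ̄`. -/
noncomputable def coe' {E : Field'} (x : Int' E) : QBar := (((show 𝓞 E from x) : E) : QBar)

/-- The class number of `E`. -/
noncomputable def classNr (E : Field') [NumberField E] : ℕ := classNumber E

/-- `E` has no embedding in the field of real numbers. -/
def IsComplex' (E : Field') : Prop := ∀ φ : E →+* ℂ, ∃ x, (φ x).im ≠ 0

/-- The norm of the ideal `Q`: the number of elements of the residue class ring. -/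
noncomputable def normId {E : Field'} (Q : Ideal (Int' E)) : ℕ := Nat.card (Int' E ⧸ Q)

/-- Only one prime ideal of `E` contains `p`. -/
def OnePrime (p : ℕ) (E : Field') : Prop :=
  ∀ P P' : Ideal (Int' E), P.IsPrime → P'.IsPrime → (p : Int' E) ∈ P → (p : Int' E) ∈ P' → P = P'

/-- The units of `E` which are squares modulo `4` are squares. -/
def PrimaryUnits (E : Field') : Prop :=
  ∀ (u : (Int' E)ˣ) (w : Int' E), 4 ∣ (u : Int' E) - w ^ 2 → ∃ η : (Int' E)ˣ, u = η ^ 2

/-- `Q` is the unit ideal or a prime ideal whose norm (and its negative, if `E` is not totally complex)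
is not a `p`-th power in `ℚ_p`. -/
def Auxiliary (p : ℕ) [Fact p.Prime] {E : Field'} (Q : Ideal (Int' E)) : Prop :=
  Q = ⊤ ∨ (Q.IsPrime ∧ ∀ b : ℚ_[p], b ^ p ≠ (normId Q : ℚ_[p]) ∧
    (¬ IsComplex' E → b ^ p ≠ -(normId Q : ℚ_[p])))

/-- The place of `ℚ̄` given by `ι` is above the prime ideal `Q` of `E`. (It is above no prime ideal
equal to the unit ideal.) -/
def Above {E : Field'} {ℓ : ℕ} [Fact ℓ.Prime] (ι : QBar →ₐ[ℚ] PadicAlgCl ℓ)
    (Q : Ideal (Int' E)) : Prop :=
  ∀ x : Int' E, x ∈ Q ↔ ‖ι (coe' x)‖ < 1

/-- The conditions on the base field `E` and on the auxiliary ideal `Q`: `E` contains the `p`-th roots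
of unity, only one prime ideal of `E` contains `p`, the class number of `E` is prime to `p` (and, if
`p = 2` and `E` is not totally complex, the units which are squares modulo `4` are squares), and `Q` is
the unit ideal or a prime ideal whose norm (and its negative, if `E` is not totally complex) is not a
`p`-th power in `ℚ_p`. -/
structure IsBase (p : ℕ) [Fact p.Prime] (E : Field') [NumberField E] (Q : Ideal (Int' E)) : Prop where
  root : ∃ ζ : E, IsPrimitiveRoot ζ p
  unique : OnePrime p E
  coprime : (classNr E).Coprime p
  units : p = 2 → IsComplex' E ∨ PrimaryUnits E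
  aux : Auxiliary p Q

/-- `M` is a finite Galois extension of `E`, of degree a power of `p`, which is unramified outside `p`,
`Q` and infinity. -/
structure IsPExtension (p : ℕ) (E : Field') [NumberField E] (Q : Ideal (Int' E)) (M : Field') :
    Prop where
  le : E ≤ M
  normal : ∀ σ ∈ galOf E, ∀ x ∈ M, app σ x ∈ M
  degree : ∃ a : ℕ, Module.finrank ℚ M = p ^ a * Module.finrank ℚ E
  unramified : ∀ (ℓ : ℕ) [Fact ℓ.Prime] (ι : QBar →ₐ[ℚ] PadicAlgCl ℓ), ℓ ≠ p → ¬ Above ι Q →
    ∀ σ ∈ (Inr ι : Set AbsGal), σ ∈ galOf E → ∀ x ∈ M, app σ x = x

variable {L : Field'}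

/-- The representation `ρ` of the absolute Galois group of `L` is continuous, and its restriction to
the absolute Galois group of `M` is residually unipotent and unramified outside `p` and `Q`. -/
structure Admissible {A : Type} [CommRing A] [IsLocalRing A] [TopologicalSpace A] {n : ℕ} (p : ℕ)
    (E : Field') [NumberField E] (Q : Ideal (Int' E)) (M : Field')
    (ρ : galOf L →* GL (Fin n) A) : Prop where
  cont : ∀ i j, Continuous fun σ => (ρ σ : Matrix (Fin n) (Fin n) A) i j
  unipotent : ∀ σ : galOf L, (σ : AbsGal) ∈ galOf M → ∃ m : ℕ, ∀ i j,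
    (((ρ σ : Matrix (Fin n) (Fin n) A) - 1) ^ m) i j ∈ maximalIdeal A
  unramified : ∀ (ℓ : ℕ) [Fact ℓ.Prime] (ι : QBar →ₐ[ℚ] PadicAlgCl ℓ), ℓ ≠ p → ¬ Above ι Q →
    ∀ σ : galOf L, (σ : AbsGal) ∈ Inr ι → (σ : AbsGal) ∈ galOf M → ρ σ = 1

/-- The action of `σ` on `V = F ^ n`. -/
noncomputable def act {A : Type} [CommRing A] (F : Type) [Field F] [Algebra A F] {n : ℕ}
    (ρ : galOf L →* GL (Fin n) A) (σ : galOf L) (v : Fin n → F) : Fin n → F :=
  ((ρ σ : Matrix (Fin n) (Fin n) A).map (algebraMap A F)) *ᵥ v

/-- `D ∩ G_L` is covered by the left cosets `r D'` with `r ∈ R`. -/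
def Covers (D : Set AbsGal) (D' : Subgroup (galOf L)) (R : Finset (galOf L)) : Prop :=
  ∀ δ : galOf L, (δ : AbsGal) ∈ D → ∃ r ∈ R, r⁻¹ * δ ∈ D'

/-- `W` is an ordinary part of `V` at the place given by `ι`: for a subgroup `D'` of `G_L`, finitely
many left cosets of which cover the decomposition group, the elements of inertia in `D'` which fix the
roots of unity of order a power of `p` act trivially on `W`, and some element `δ` of inertia in `D'`
acts on `W` as a scalar `c` such that for all `k > 0` the scalar `c ^ k` is not an eigenvalue of
`δ ^ k` on `V / W`. (This holds if the elements of inertia in `D'` act on `W` by the cyclotomic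
character and trivially on `V / W`.) -/
def IsOrdinaryPart {A : Type} [CommRing A] (F : Type) [Field F] [Algebra A F] {n p : ℕ}
    [Fact p.Prime] (ρ : galOf L →* GL (Fin n) A) (ι : QBar →ₐ[ℚ] PadicAlgCl p)
    (W : Submodule F (Fin n → F)) : Prop :=
  ∃ (D' : Subgroup (galOf L)) (R : Finset (galOf L)), Covers (Dec ι) D' R ∧
    (∀ δ ∈ D', (δ : AbsGal) ∈ (Inr ι : Set AbsGal) →
      (∀ (k : ℕ) (z : QBar), z ^ p ^ k = 1 → app δ z = z) → ∀ w ∈ W, act F ρ δ w = w) ∧
    ∃ δ ∈ D', (δ : AbsGal) ∈ (Inr ι : Set AbsGal) ∧ ∃ c : F, (∀ w ∈ W, act F ρ δ w = c • w) ∧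
      ∀ k : ℕ, 0 < k → ∀ v, act F ρ (δ ^ k) v - c ^ k • v ∈ W → v ∈ W

/-- **The ordinary parts are stable under the global Galois group.** -/
theorem result (p : ℕ) [Fact p.Prime] (E : Field') [NumberField E] (Q : Ideal (Int' E))
    (hE : IsBase p E Q) (M : Field') (hM : IsPExtension p E Q M) (L : Field') (hL : L ≤ M)
    (A : Type) [CommRing A] [IsLocalRing A] [IsNoetherianRing A] [TopologicalSpace A]
    (hA : IsAdic (maximalIdeal A)) (hfin : Finite (ResidueField A)) (hp : (p : A) ∈ maximalIdeal A)
    (F : Type) [Field F] [Algebra A F] [IsFractionRing A F] 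
    (n : ℕ) (ρ : galOf L →* GL (Fin n) A) (hρ : Admissible p E Q M ρ)
    (ι : QBar →ₐ[ℚ] PadicAlgCl p) (W : Submodule F (Fin n → F)) (hW : IsOrdinaryPart F ρ ι W)
    (σ : galOf L) (w : Fin n → F) (hw : w ∈ W) : act F ρ σ w ∈ W := by
  have hdense := Pool.Agent.K9h38.RP.fin_dense hE.root hE.units hE.unique hE.coprime hE.aux hM.le
    hM.normal hM.degree hM.unramified hL hA hfin hp hρ.cont hρ.unipotent hρ.unramified ι
  obtain ⟨D', R, hR, hcyc, δ, hδ, hδI, c, hc, hdist⟩ := hW
  exact Pool.Agent.K9h38.RP.ord_stable ι hdense R.finite_toSet hR hcyc hδ hδI hc hdist σ w hw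

end Pool.Agent.Results.MP_326854_nt.OrdinaryPartsAboveP
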